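import Pool.Agent.Helper20.RL.St4

/-!
# Project RL (MP_cb927e_an), module PPB: the dual ridge theorem for one class
-/

set_option autoImplicit false

open MeasureTheory Set Filter Topology
open scoped ENNReal RealInnerProductSpace

namespace Pool.Agent.Helper72.RL

open Pool.Agent.Helper68.LM (Pl BB Bd Av HL ft fm DQ)
open Pool.Agent.Helper20.RG Pool.Agent.Helper20.RL

/-- PPB -/
theorem hPPB (hLLM : StLLM) (hLUF : StLUF) : StPPB := by
  intro κ _ hP u b l K A σ s m F D η hu hb hl hM hA hs hm hF hC hD hDη hη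
  have hD0 : 0 < D := lt_of_lt_of_le (by positivity) hD
  have hη0 : 0 < η := by linarith
  obtain ⟨-, hmono, hlad, -, -, -, -⟩ := hLLM u (by omega)
  have hτ : 16 * u * b + l + 1 ≤ Mt u + 1 := by omega
  have h0 : lad u (16 * u * b + l + 1) = (om u b l : ℤ) := hlad b l hl.le
  have h1 : (om u b 0 : ℤ) ≤ (om u b l : ℤ) := by
    rw [← h0, ← hlad b 0 (by omega)]
    exact hmono (by omega)
  choose Af Bf hFml hAB using fun j : ℕ =>
    (hLUF F (s j) (m j) u η (16 * u * b + l + 1) K (by omega) hη0 hτ).2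
  refine hP u b A σ s F D (η / 2) (fun j => ⋃ k ∈ Ico (0 : ℤ) K,
    UU F (s j) (m j) u η (16 * u * b + l + 1) k) Af Bf hu hb hA hs hF hC hD
    (by linarith) (by linarith) ?_
  intro j hj
  refine ⟨hFml j, ?_⟩
  intro z hz
  obtain ⟨k, hk, hk1, hk2⟩ := hAB j z hz
  have hk0 : 0 ≤ k := hk.1
  have hmj := hm j hj
  have h2 : (0 : ℤ) ≤ (om u b l : ℤ) := Int.natCast_nonneg _
  rw [hk1, hk2, h0]
  constructor
  · linarith
  · have h3 : (u : ℤ) ≤ (m j : ℤ) + 1 := by exact_mod_cast hmj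
    have h4 : (2 : ℤ) ≤ (u : ℤ) := by exact_mod_cast hu
    linarith

end Pool.Agent.Helper72.RL
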